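import Pool.Agent.Helper60.CQ.Conc

/-!
# MP_b66f9f_gt: the spaces `X(p, p+2)`, `p` even and positive, have no compact quotients

`X p q` is the quadric of signature `(p, q)` and constant curvature `1` in `ℝ^(p+1+q)`. For `p = 2 k`, `k ≥ 1`, and `q = p + 2` no group
of isometries acts properly discontinuously and cocompactly on `X p q`. The first case is the signature `(2, 4)`.
-/

set_option autoImplicit false

open Pool.Agent.Helper60.CQ.SF

theorem Pool.Agent.Results.MP_b66f9f_gt.NoCompactQuotient.result (k : ℕ) (hk : 1 ≤ k)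
    (Γ : Subgroup (G (2 * k) (2 * k + 2))) (hO : Isometric (2 * k) (2 * k + 2) Γ)
    (hpd : ProperlyDiscontinuous (2 * k) (2 * k + 2) Γ) : ¬ Cocompact (2 * k) (2 * k + 2) Γ :=
  Pool.Agent.Helper60.CQ.SF.main hk Γ hO hpd
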